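import Mathlib
set_option autoImplicit false
namespace Pool.Agent.V7H18.Helly
open Filter Topology

/-- same nonzero signs of all maximal minors with rows in `S` -/
def Rel {r : ℕ} {K : Type} (S : Set K) (X P : K → Fin r → ℝ) : Prop :=
  ∀ s : Fin r → K, Function.Injective s → (∀ j, s j ∈ S) →
    0 < (Matrix.of fun j => X (s j)).det * (Matrix.of fun j => P (s j)).det

lemma dom {n : ℕ} (c c' : Fin (n + 1) → ℝ) (e : Fin (n + 1) → ℕ) (he : Function.Injective e)
    (hc : ∀ i, 0 < c i * c' i) :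
    ∀ᶠ t in 𝓝[>] (0 : ℝ), 0 < (∑ i, c i * t ^ (e i)) * (∑ i, c' i * t ^ (e i)) := by
  obtain ⟨i0, -, hi0⟩ := Finset.exists_min_image Finset.univ e ⟨0, Finset.mem_univ 0⟩
  have hmin : ∀ i, e i0 ≤ e i := fun i => hi0 i (Finset.mem_univ i)
  set g : (Fin (n + 1) → ℝ) → ℝ → ℝ := fun c t => ∑ i, c i * t ^ (e i - e i0) with hg
  have hg0 : ∀ c, g c 0 = c i0 := by
    intro c
    rw [hg]
    simp only
    rw [Finset.sum_eq_single i0]
    · simp
    · intro i _ hi
      have h1 : e i ≠ e i0 := fun h => hi (he h)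
      have h2 := hmin i
      rw [zero_pow (by omega), mul_zero]
    · intro h
      exact absurd (Finset.mem_univ i0) h
  have hgc : ∀ c, Continuous (g c) := by
    intro c
    rw [hg]
    fun_prop
  have hpos : 0 < g c 0 * g c' 0 := by
    rw [hg0, hg0]
    exact hc i0
  have h1 : ∀ᶠ t in 𝓝 (0 : ℝ), 0 < g c t * g c' t :=
    ((hgc c).mul (hgc c')).continuousAt.eventually (lt_mem_nhds hpos)
  have h2 : ∀ᶠ t in 𝓝[>] (0 : ℝ), 0 < g c t * g c' t := h1.filter_mono nhdsWithin_le_nhds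
  filter_upwards [h2, self_mem_nhdsWithin] with t ht ht0
  have ht0' : (0 : ℝ) < t := ht0
  have hfac : ∀ c : Fin (n + 1) → ℝ, ∑ i, c i * t ^ (e i) = t ^ (e i0) * g c t := by
    intro c
    rw [hg]
    simp only
    rw [Finset.mul_sum]
    apply Finset.sum_congr rfl
    intro i _
    have h3 : t ^ (e i) = t ^ (e i0) * t ^ (e i - e i0) := by
      rw [← pow_add]
      congr 1
      have := hmin i
      omega
    rw [h3]
    ring
  rw [hfac, hfac]
  have : t ^ e i0 * g c t * (t ^ e i0 * g c' t) = (t ^ e i0) ^ 2 * (g c t * g c' t) := by ring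
  rw [this]
  positivity

/-- rows with one more coordinate, and one more row `(0, …, 0, 1)` -/
def ext1 {r : ℕ} {K : Type} (v : K → ℝ) (X : K → Fin r → ℝ) : Option K → Fin (r + 1) → ℝ :=
  fun o => o.elim (Fin.snoc (α := fun _ => ℝ) 0 1) (fun i => Fin.snoc (α := fun _ => ℝ) (X i) (v i))

lemma det_ext1_some {r : ℕ} {K : Type} (v : K → ℝ) (X : K → Fin r → ℝ) (s : Fin (r + 1) → K) :
    (Matrix.of fun j => ext1 v X (some (s j))).det =
      ∑ i : Fin (r + 1), ((-1) ^ (i.val + r) * (Matrix.of fun j => X (s (i.succAbove j))).det) *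
        v (s i) := by
  rw [Matrix.det_succ_column _ (Fin.last r)]
  apply Finset.sum_congr rfl
  intro i _
  have h1 : (Matrix.of fun j => ext1 v X (some (s j))) i (Fin.last r) = v (s i) := by
    simp [ext1]
  have h2 : (Matrix.of fun j => ext1 v X (some (s j))).submatrix i.succAbove
      (Fin.last r).succAbove = Matrix.of fun j => X (s (i.succAbove j)) := by
    ext a b
    simp [ext1]
  rw [h1, h2]
  simp only [Fin.val_last]
  ring

lemma det_ext1_none {r : ℕ} {K : Type} (X : K → Fin r → ℝ) (s : Fin (r + 1) → Option K)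
    (j0 : Fin (r + 1)) (hj0 : s j0 = none) (s' : Fin r → K)
    (hs' : ∀ j, s (j0.succAbove j) = some (s' j)) :
    (Matrix.of fun j => ext1 (fun _ => 0) X (s j)).det =
      (-1) ^ (j0.val + r) * (Matrix.of fun j => X (s' j)).det := by
  rw [Matrix.det_succ_column _ (Fin.last r), Finset.sum_eq_single j0]
  · have h1 : (Matrix.of fun j => ext1 (fun _ => 0) X (s j)) j0 (Fin.last r) = 1 := by
      simp [ext1, hj0]
    have h2 : (Matrix.of fun j => ext1 (fun _ => 0) X (s j)).submatrix j0.succAbove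
        (Fin.last r).succAbove = Matrix.of fun j => X (s' j) := by
      ext a b
      simp [ext1, hs']
    rw [h1, h2]
    simp
  · intro i _ hi
    obtain ⟨j, rfl⟩ := Fin.exists_succAbove_eq hi
    have h1 : (Matrix.of fun j => ext1 (fun _ => 0) X (s j)) (j0.succAbove j) (Fin.last r) = 0 := by
      simp [ext1, hs']
    rw [h1]
    ring
  · intro h
    exact absurd (Finset.mem_univ j0) h

lemma step {r : ℕ} {K : Type} [Finite K] {κ : Type} [Finite κ] (S : κ → Set K)
    (X : κ → K → Fin r → ℝ) (P : K → Fin r → ℝ) (h : ∀ k, Rel (S k) (X k) P) :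
    ∃ v : K → ℝ, (∀ i, 0 < v i) ∧
      ∀ k, Rel {o : Option K | ∀ i, o = some i → i ∈ S k} (ext1 v (X k)) (ext1 v P) := by
  obtain ⟨n, ⟨en⟩⟩ := Finite.exists_equiv_fin K
  set V : ℝ → K → ℝ := fun t i => t ^ ((en i).val + 1) with hV
  have hVcont : ∀ i, Continuous (fun t => V t i) := by
    intro i
    rw [hV]
    fun_prop
  have hextcont : ∀ (Y : K → Fin r → ℝ) (o : Option K) (c : Fin (r + 1)),
      Continuous (fun t => ext1 (V t) Y o c) := by
    intro Y o c
    cases o with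
    | none => exact continuous_const
    | some i =>
      refine Fin.lastCases ?_ ?_ c
      · simp only [ext1, Option.elim_some, Fin.snoc_last]
        exact hVcont i
      · intro j
        simp only [ext1, Option.elim_some, Fin.snoc_castSucc]
        exact continuous_const
  have hdetcont : ∀ (Y : K → Fin r → ℝ) (s : Fin (r + 1) → Option K),
      Continuous (fun t => (Matrix.of fun j => ext1 (V t) Y (s j)).det) := by
    intro Y s
    apply Continuous.matrix_det
    apply continuous_matrix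
    intro i j
    exact hextcont Y (s i) j
  have key : ∀ (k : κ) (s : Fin (r + 1) → Option K), Function.Injective s →
      (∀ j, s j ∈ {o : Option K | ∀ i, o = some i → i ∈ S k}) →
      ∀ᶠ t in 𝓝[>] (0 : ℝ), 0 < (Matrix.of fun j => ext1 (V t) (X k) (s j)).det *
        (Matrix.of fun j => ext1 (V t) P (s j)).det := by
    intro k s hinj hmem
    by_cases hnone : ∃ j0, s j0 = none
    · obtain ⟨j0, hj0⟩ := hnone
      have hsome : ∀ j, ∃ i, s (j0.succAbove j) = some i := by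
        intro j
        rw [← Option.ne_none_iff_exists']
        intro hn
        have := hinj (hn.trans hj0.symm)
        exact Fin.succAbove_ne j0 j this
      choose s' hs' using hsome
      have hV0 : V 0 = fun _ => 0 := by
        funext i
        simp [hV]
      have h0 : 0 < (Matrix.of fun j => ext1 (V 0) (X k) (s j)).det *
          (Matrix.of fun j => ext1 (V 0) P (s j)).det := by
        rw [hV0, det_ext1_none _ s j0 hj0 s' hs', det_ext1_none _ s j0 hj0 s' hs']
        have h1 := h k s' (by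
          intro a b hab
          have : s (j0.succAbove a) = s (j0.succAbove b) := by rw [hs', hs', hab]
          exact Fin.succAbove_right_injective (hinj this)) (by
          intro j
          exact hmem (j0.succAbove j) (s' j) (hs' j))
        have h2 : ((-1 : ℝ) ^ (j0.val + r)) * ((-1) ^ (j0.val + r)) = 1 := by
          rw [← mul_pow]
          simp
        calc (0 : ℝ) < _ := h1
          _ = _ := by
            linear_combination (-(Matrix.of fun j => X k (s' j)).det *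
              (Matrix.of fun j => P (s' j)).det) * h2
      have h1 : ∀ᶠ t in 𝓝 (0 : ℝ), 0 < (Matrix.of fun j => ext1 (V t) (X k) (s j)).det *
          (Matrix.of fun j => ext1 (V t) P (s j)).det :=
        ((hdetcont (X k) s).mul (hdetcont P s)).continuousAt.eventually (lt_mem_nhds h0)
      exact h1.filter_mono nhdsWithin_le_nhds
    · push Not at hnone
      have hsome : ∀ j, ∃ i, s j = some i := fun j => Option.ne_none_iff_exists'.1 (hnone j)
      choose s' hs' using hsome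
      have hs : s = fun j => some (s' j) := funext hs'
      have hinj' : Function.Injective s' := by
        intro a b hab
        apply hinj
        rw [hs', hs', hab]
      subst hs
      simp only [det_ext1_some]
      apply dom
      · intro a b hab
        simp only [Nat.add_right_cancel_iff] at hab
        have h1 : (en (s' a)).val = (en (s' b)).val := hab
        exact hinj' (en.injective (Fin.ext h1))
      · intro i
        have h1 := h k (fun j => s' (i.succAbove j))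
          (hinj'.comp Fin.succAbove_right_injective)
          (fun j => hmem (i.succAbove j) _ rfl)
        have h2 : ((-1 : ℝ) ^ (i.val + r)) * ((-1) ^ (i.val + r)) = 1 := by
          rw [← mul_pow]
          simp
        calc (0 : ℝ) < _ := h1
          _ = _ := by
            linear_combination (-(Matrix.of fun j => X k (s' (i.succAbove j))).det *
              (Matrix.of fun j => P (s' (i.succAbove j))).det) * h2
  have hall : ∀ᶠ t in 𝓝[>] (0 : ℝ), ∀ (k : κ) (s : Fin (r + 1) → Option K),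
      Function.Injective s → (∀ j, s j ∈ {o : Option K | ∀ i, o = some i → i ∈ S k}) →
      0 < (Matrix.of fun j => ext1 (V t) (X k) (s j)).det *
        (Matrix.of fun j => ext1 (V t) P (s j)).det := by
    rw [eventually_all]
    intro k
    rw [eventually_all]
    intro s
    by_cases h1 : Function.Injective s ∧ (∀ j, s j ∈ {o : Option K | ∀ i, o = some i → i ∈ S k})
    · filter_upwards [key k s h1.1 h1.2] with t ht _ _
      exact ht
    · filter_upwards with t h2 h3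
      exact absurd ⟨h2, h3⟩ h1
  obtain ⟨t, ht, ht0⟩ := (hall.and self_mem_nhdsWithin).exists
  have ht0' : (0 : ℝ) < t := ht0
  refine ⟨V t, fun i => ?_, fun k s hs1 hs2 => ht k s hs1 hs2⟩
  rw [hV]
  positivity


/-- a row with three leading entries -/
def row {m : ℕ} (u : Fin 3 → ℝ) (t : Fin m → ℝ) : Fin (m + 3) → ℝ :=
  Fin.cons (u 0) (Fin.cons (u 1) (Fin.cons (u 2) t))

lemma snoc_row {m : ℕ} (u : Fin 3 → ℝ) (t : Fin m → ℝ) (v : ℝ) :
    (Fin.snoc (α := fun _ => ℝ) (row u t) v : Fin (m + 3 + 1) → ℝ) =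
      row u (Fin.snoc (α := fun _ => ℝ) t v) := by
  unfold row
  rw [← Fin.cons_snoc_eq_snoc_cons, ← Fin.cons_snoc_eq_snoc_cons, ← Fin.cons_snoc_eq_snoc_cons]

/-- all rows: those of the index set `I`, and `m` further ones -/
def rows {m : ℕ} {I : Type} (X : I → Fin 3 → ℝ) (T : I → Fin m → ℝ) (W : Fin m → Fin m → ℝ) :
    I ⊕ Fin m → Fin (m + 3) → ℝ :=
  Sum.elim (fun i => row (X i) (T i)) (fun j => row 0 (W j))

lemma Rel.comp {r : ℕ} {K K' : Type} {S : Set K} {X P : K → Fin r → ℝ} (h : Rel S X P)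
    (f : K' → K) (hf : Function.Injective f) : Rel (f ⁻¹' S) (X ∘ f) (P ∘ f) :=
  fun s hs hm => h (f ∘ s) (hf.comp hs) hm

lemma iter {I : Type} [Finite I] {κ : Type} [Finite κ] (S : κ → Set I)
    (X : κ → I → Fin 3 → ℝ) (P : I → Fin 3 → ℝ) (h : ∀ k, Rel (S k) (X k) P) (m : ℕ) :
    ∃ (T : I → Fin m → ℝ) (W : Fin m → Fin m → ℝ), (∀ i j, 0 < T i j) ∧ (∀ i j, 0 ≤ W i j) ∧
      (∀ i, 0 < ∑ j, W i j) ∧ 0 < (Matrix.of W).det ∧
      ∀ k, Rel {o : I ⊕ Fin m | ∀ i, o = Sum.inl i → i ∈ S k} (rows (X k) T W) (rows P T W) := by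
  induction m with
  | zero =>
    refine ⟨fun _ => Fin.elim0, Fin.elim0, fun _ j => j.elim0, fun j => j.elim0, fun j => j.elim0,
      by simp, fun k s hs hm => ?_⟩
    have hsome : ∀ j, ∃ i, s j = Sum.inl i := by
      intro j
      rcases hj : s j with i | i
      · exact ⟨i, rfl⟩
      · exact i.elim0
    choose s' hs' using hsome
    have h1 := h k s' (by
      intro a b hab
      apply hs
      rw [hs', hs', hab]) (fun j => hm j _ (hs' j))
    have h2 : ∀ Y : I → Fin 3 → ℝ, (Matrix.of fun j => rows Y (fun _ => Fin.elim0 : I → Fin 0 → ℝ)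
        (Fin.elim0 : Fin 0 → Fin 0 → ℝ) (s j)) = Matrix.of fun j => Y (s' j) := by
      intro Y
      ext a b
      simp only [Matrix.of_apply, hs', rows, Sum.elim_inl]
      unfold row
      fin_cases b <;> rfl
    rw [h2, h2]
    exact h1
  | succ m ih =>
    obtain ⟨T, W, hT, hW, hWs, hdet, hrel⟩ := ih
    obtain ⟨v, hv, hv2⟩ := step (fun k => {o : I ⊕ Fin m | ∀ i, o = Sum.inl i → i ∈ S k})
      (fun k => rows (X k) T W) (rows P T W) hrel
    set T' : I → Fin (m + 1) → ℝ := fun i => Fin.snoc (α := fun _ => ℝ) (T i) (v (Sum.inl i))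
      with hT'
    set W' : Fin (m + 1) → Fin (m + 1) → ℝ := Fin.snoc (α := fun _ => Fin (m + 1) → ℝ)
      (fun j => Fin.snoc (α := fun _ => ℝ) (W j) (v (Sum.inr j)))
      (Fin.snoc (α := fun _ => ℝ) 0 1) with hW'
    set f : I ⊕ Fin (m + 1) → Option (I ⊕ Fin m) := Sum.elim (fun i => some (Sum.inl i))
      (Fin.snoc (α := fun _ => Option (I ⊕ Fin m)) (fun j => some (Sum.inr j)) none) with hf
    have hfi : Function.Injective f := by
      intro a b hab
      rcases a with a | a <;> rcases b with b | b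
      · simp only [hf, Sum.elim_inl, Option.some.injEq, Sum.inl.injEq] at hab
        rw [hab]
      · exfalso
        revert hab
        refine Fin.lastCases ?_ ?_ b
        · simp [hf]
        · intro j
          simp [hf]
      · exfalso
        revert hab
        refine Fin.lastCases ?_ ?_ a
        · simp [hf]
        · intro j
          simp [hf]
      · congr 1
        revert hab
        refine Fin.lastCases ?_ ?_ a
        · refine Fin.lastCases ?_ ?_ b
          · simp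
          · intro j
            simp [hf]
        · intro i
          refine Fin.lastCases ?_ ?_ b
          · simp [hf]
          · intro j
            simp [hf]
    have hrows : ∀ Y : I → Fin 3 → ℝ, rows Y T' W' = ext1 v (rows Y T W) ∘ f := by
      intro Y
      funext o
      rcases o with i | j
      · simp only [rows, Sum.elim_inl, Function.comp_apply, hf, ext1, Option.elim_some, hT']
        rw [snoc_row]
      · refine Fin.lastCases ?_ ?_ j
        · simp only [rows, Sum.elim_inr, Function.comp_apply, hf, ext1, Fin.snoc_last,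
            Option.elim_none, hW']
          rw [← snoc_row]
          congr 1
          unfold row
          funext c
          refine Fin.cases ?_ ?_ c
          · rfl
          · intro c
            refine Fin.cases ?_ ?_ c
            · rfl
            · intro c
              refine Fin.cases ?_ ?_ c
              · rfl
              · intro c
                rfl
        · intro j
          simp only [rows, Sum.elim_inr, Function.comp_apply, hf, ext1, Fin.snoc_castSucc,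
            Option.elim_some, hW']
          rw [snoc_row]
    refine ⟨T', W', ?_, ?_, ?_, ?_, ?_⟩
    · intro i j
      refine Fin.lastCases ?_ ?_ j
      · simp only [hT', Fin.snoc_last]
        exact hv _
      · intro j
        simp only [hT', Fin.snoc_castSucc]
        exact hT i j
    · intro i j
      refine Fin.lastCases ?_ ?_ i
      · refine Fin.lastCases ?_ ?_ j
        · simp [hW']
        · intro j
          simp [hW']
      · intro i
        refine Fin.lastCases ?_ ?_ j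
        · simp only [hW', Fin.snoc_last, Fin.snoc_castSucc]
          exact (hv _).le
        · intro j
          simp only [hW', Fin.snoc_castSucc]
          exact hW i j
    · intro i
      refine Fin.lastCases ?_ ?_ i
      · rw [Fin.sum_univ_castSucc]
        simp [hW']
      · intro i
        rw [Fin.sum_univ_castSucc]
        simp only [hW', Fin.snoc_last, Fin.snoc_castSucc]
        have h1 := hWs i
        have h2 := hv (Sum.inr i)
        linarith
    · rw [Matrix.det_succ_row _ (Fin.last m), Fin.sum_univ_castSucc]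
      have h1 : ∀ j : Fin m, (Matrix.of W') (Fin.last m) j.castSucc = 0 := by
        intro j
        simp [hW']
      have h2 : (Matrix.of W') (Fin.last m) (Fin.last m) = 1 := by
        simp [hW']
      have h3 : (Matrix.of W').submatrix (Fin.last m).succAbove (Fin.last m).succAbove =
          Matrix.of W := by
        ext a b
        simp [hW']
      simp only [h1, h2, h3]
      simpa using hdet
    · intro k
      have h1 := (hv2 k).comp f hfi
      rw [hrows, hrows]
      have h2 : {o : I ⊕ Fin (m + 1) | ∀ i, o = Sum.inl i → i ∈ S k} ⊆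
          f ⁻¹' {o : Option (I ⊕ Fin m) | ∀ i, o = some i →
            i ∈ {o : I ⊕ Fin m | ∀ i, o = Sum.inl i → i ∈ S k}} := by
        rintro (i | j) ho
        · intro a ha i' hi'
          simp only [hf, Sum.elim_inl, Option.some.injEq] at ha
          rw [← ha] at hi'
          exact ho i' (congrArg Sum.inl (Sum.inl.inj hi'))
        · intro a ha i' hi'
          exfalso
          revert ha
          refine Fin.lastCases ?_ ?_ j
          · simp [hf]
          · intro j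
            rw [hi']
            simp [hf]
      exact fun s hs hm => h1 s hs (fun j => h2 (hm j))



/-! ### the base configuration in three-space -/

/-- cluster of an index -/
def cl (i : ℕ) : ℕ := (i - 2) / 3
/-- position in the cluster -/
def ps (i : ℕ) : ℕ := (i - 2) % 3

/-- orientation of three points of the plane -/
def D (x y : ℕ → ℝ) (i j k : ℕ) : ℝ := (x j - x i) * (y k - y i) - (x k - x i) * (y j - y i)

/-- first coordinate of a cluster -/
noncomputable def kap (i : ℕ) : ℝ := (cl i : ℝ) + 1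
/-- constant -/
noncomputable def CC (N : ℕ) : ℝ := 4 * ((N : ℝ) + 2)
/-- height of a cluster -/
noncomputable def YY (N i : ℕ) : ℝ := CC N * kap i ^ 2
/-- bound -/
noncomputable def BB (N : ℕ) : ℝ := CC N * (N : ℝ) ^ 2 + 4

structure Adm (N : ℕ) (ε : ℝ) (S : Set ℕ) (x y : ℕ → ℝ) : Prop where
  x0 : x 0 = -1
  y0 : y 0 = 0
  x1 : x 1 = 0
  y1 : y 1 = 0
  hx : ∀ i, 2 ≤ i → i < 3 * N + 2 → |x i - kap i| ≤ ε
  hy1 : ∀ i, 2 ≤ i → i < 3 * N + 2 → YY N i + 1 ≤ y i
  hy2 : ∀ i, 2 ≤ i → i < 3 * N + 2 → y i ≤ YY N i + 4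
  hyy : ∀ i j, 2 ≤ i → i < j → j < 3 * N + 2 → cl i = cl j → y i + 1 ≤ y j
  tri : ∀ i, 2 ≤ i → i < 3 * N + 2 → ps i = 0 → i ∈ S → 0 < D x y i (i + 1) (i + 2)

lemma Asame {a κ B ε x x' y y' : ℝ} (ha0 : a ≤ 0) (hκ : 1 ≤ κ) (hε0 : 0 ≤ ε)
    (hε : 8 * (ε * (B + 1)) ≤ 1) (hx : |x - κ| ≤ ε) (hx' : |x' - κ| ≤ ε) (hy : 0 ≤ y) (hyB : y ≤ B)
    (hyy : y + 1 ≤ y') : 0 < (x - a) * y' - (x' - a) * y := by
  rw [abs_le] at hx hx'
  have h0 : ε * y ≤ ε * B := mul_le_mul_of_nonneg_left hyB hε0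
  have hεs : ε ≤ 1 / 8 := by nlinarith
  have h1 : (κ - ε - a) * (y + 1) ≤ (x - a) * y' :=
    mul_le_mul (by linarith [hx.1]) hyy (by linarith) (by linarith [hx.1])
  have h2 : (x' - a) * y ≤ (κ + ε - a) * y := mul_le_mul_of_nonneg_right (by linarith [hx'.2]) hy
  nlinarith

lemma Adiff {a κ κ' n ε x x' y y' : ℝ} (ha : -1 ≤ a) (ha0 : a ≤ 0) (hκ : 1 ≤ κ) (hκκ : κ + 1 ≤ κ')
    (hn : κ' ≤ n) (hε0 : 0 ≤ ε) (hε : 8 * (ε * (4 * (n + 2) * n ^ 2 + 4 + 1)) ≤ 1)
    (hx : |x - κ| ≤ ε) (hx' : |x' - κ'| ≤ ε) (hy : 0 ≤ y)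
    (hy4 : y ≤ 4 * (n + 2) * κ ^ 2 + 4) (hy' : 4 * (n + 2) * κ' ^ 2 + 1 ≤ y') :
    0 < (x - a) * y' - (x' - a) * y := by
  rw [abs_le] at hx hx'
  have hn2 : 2 ≤ n := by linarith
  have hεs : ε ≤ 1 / 8 := by
    have : 0 ≤ ε * (4 * (n + 2) * n ^ 2 + 4) := by positivity
    nlinarith
  have hC : 0 < 4 * (n + 2) := by linarith
  have h1 : (κ - ε - a) * (4 * (n + 2) * κ' ^ 2 + 1) ≤ (x - a) * y' :=
    mul_le_mul (by linarith [hx.1]) hy' (by positivity) (by linarith [hx.1])
  have h2 : (x' - a) * y ≤ (κ' + ε - a) * (4 * (n + 2) * κ ^ 2 + 4) :=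
    mul_le_mul (by linarith [hx'.2]) hy4 hy (by linarith [hx'.1])
  have h3 : κ ^ 2 ≤ n ^ 2 := by
    apply pow_le_pow_left₀ <;> linarith
  have h4 : κ' ^ 2 ≤ n ^ 2 := by
    apply pow_le_pow_left₀ <;> linarith
  have h5 : ε * (4 * (n + 2) * κ ^ 2) ≤ ε * (4 * (n + 2) * n ^ 2) := by
    apply mul_le_mul_of_nonneg_left _ hε0
    apply mul_le_mul_of_nonneg_left h3 hC.le
  have h6 : ε * (4 * (n + 2) * κ' ^ 2) ≤ ε * (4 * (n + 2) * n ^ 2) := by
    apply mul_le_mul_of_nonneg_left _ hε0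
    apply mul_le_mul_of_nonneg_left h4 hC.le
  have h7 : ε * (4 * (n + 2) * n ^ 2) ≤ 1 / 8 := by nlinarith
  have h8 : κ' ≤ (κ' - κ) * (κ * κ' - a * (κ + κ')) := by
    have h9 : κ' ≤ κ * κ' - a * (κ + κ') := by nlinarith
    nlinarith
  have h10 : 4 * (n + 2) * κ' ≤ 4 * (n + 2) * ((κ' - κ) * (κ * κ' - a * (κ + κ'))) :=
    mul_le_mul_of_nonneg_left h8 hC.le
  have h11 : 8 * (n + 2) ≤ 4 * (n + 2) * κ' := by nlinarith
  have h12 : (κ - ε - a) * (4 * (n + 2) * κ' ^ 2 + 1) - (κ' + ε - a) * (4 * (n + 2) * κ ^ 2 + 4) =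
      4 * (n + 2) * ((κ' - κ) * (κ * κ' - a * (κ + κ'))) - ε * (4 * (n + 2) * κ ^ 2) -
      ε * (4 * (n + 2) * κ' ^ 2) + (κ - ε - a) - 4 * (κ' + ε - a) := by ring
  nlinarith

lemma L4 {B ε x1 x2 x3 y1 y2 y3 κ κ' : ℝ} (hB : 0 ≤ B) (hε0 : 0 ≤ ε)
    (hε : 8 * (ε * (B + 1)) ≤ 1) (h1 : |x1 - κ| ≤ ε) (h2 : |x2 - κ| ≤ ε) (h3 : |x3 - κ'| ≤ ε)
    (hκ : κ + 1 ≤ κ') (hy1 : 0 ≤ y1) (hy3 : y3 ≤ B) (hy13 : y1 ≤ y3) (hyy : y1 + 1 ≤ y2) :
    (x2 - x1) * (y3 - y1) - (x3 - x1) * (y2 - y1) < 0 := by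
  rw [abs_le] at h1 h2 h3
  have hεs : ε ≤ 1 / 8 := by nlinarith
  have h5 : (x2 - x1) * (y3 - y1) ≤ (2 * ε) * B := by
    apply mul_le_mul (by linarith) (by linarith) (by linarith) (by linarith)
  have h6 : (3 / 4) * 1 ≤ (x3 - x1) * (y2 - y1) := by
    apply mul_le_mul (by linarith) (by linarith) (by norm_num) (by linarith)
  nlinarith

lemma L5 {B ε x1 x2 x3 y1 y2 y3 κ κ' : ℝ} (hB : 0 ≤ B) (hε0 : 0 ≤ ε)
    (hε : 8 * (ε * (B + 1)) ≤ 1) (h1 : |x1 - κ| ≤ ε) (h2 : |x2 - κ'| ≤ ε) (h3 : |x3 - κ'| ≤ ε)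
    (hκ : κ + 1 ≤ κ') (hy1 : 0 ≤ y1) (hy2 : y2 ≤ B) (hy12 : y1 ≤ y2) (hyy : y2 + 1 ≤ y3) :
    0 < (x2 - x1) * (y3 - y1) - (x3 - x1) * (y2 - y1) := by
  rw [abs_le] at h1 h2 h3
  have hεs : ε ≤ 1 / 8 := by nlinarith
  have h5 : (x3 - x2) * (y2 - y1) ≤ (2 * ε) * B := by
    apply mul_le_mul (by linarith) (by linarith) (by linarith) (by linarith)
  have h6 : (3 / 4) * 1 ≤ (x2 - x1) * (y3 - y2) := by
    apply mul_le_mul (by linarith) (by linarith) (by norm_num) (by linarith)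
  nlinarith

lemma L6 {n ε x1 x2 x3 y1 y2 y3 κ1 κ2 κ3 : ℝ} (hε0 : 0 ≤ ε)
    (hε : 8 * (ε * (4 * (n + 2) * n ^ 2 + 4 + 1)) ≤ 1) (h1 : |x1 - κ1| ≤ ε) (h2 : |x2 - κ2| ≤ ε)
    (h3 : |x3 - κ3| ≤ ε) (hκ1 : 1 ≤ κ1) (hκ12 : κ1 + 1 ≤ κ2) (hκ23 : κ2 + 1 ≤ κ3) (hκn : κ3 ≤ n)
    (a1 : 4 * (n + 2) * κ1 ^ 2 + 1 ≤ y1) (b1 : y1 ≤ 4 * (n + 2) * κ1 ^ 2 + 4)
    (a2 : 4 * (n + 2) * κ2 ^ 2 + 1 ≤ y2) (b2 : y2 ≤ 4 * (n + 2) * κ2 ^ 2 + 4)
    (a3 : 4 * (n + 2) * κ3 ^ 2 + 1 ≤ y3) (b3 : y3 ≤ 4 * (n + 2) * κ3 ^ 2 + 4) :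
    0 < (x2 - x1) * (y3 - y1) - (x3 - x1) * (y2 - y1) := by
  rw [abs_le] at h1 h2 h3
  have hC : 0 < 4 * (n + 2) := by linarith
  set C := 4 * (n + 2) with hCdef
  have hn0 : 0 ≤ n := by linarith
  have q2 : κ2 ^ 2 ≤ n ^ 2 := by apply pow_le_pow_left₀ <;> linarith
  have q3 : κ3 ^ 2 ≤ n ^ 2 := by apply pow_le_pow_left₀ <;> linarith
  have q12 : κ1 ^ 2 + 1 ≤ κ2 ^ 2 := by nlinarith
  have q23 : κ2 ^ 2 + 1 ≤ κ3 ^ 2 := by nlinarith
  have c2 : C * κ2 ^ 2 ≤ C * n ^ 2 := mul_le_mul_of_nonneg_left q2 hC.le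
  have c3 : C * κ3 ^ 2 ≤ C * n ^ 2 := mul_le_mul_of_nonneg_left q3 hC.le
  have c12 : C * κ1 ^ 2 + C ≤ C * κ2 ^ 2 := by nlinarith
  have c23 : C * κ2 ^ 2 + C ≤ C * κ3 ^ 2 := by nlinarith
  have c1 : 0 ≤ C * κ1 ^ 2 := by positivity
  have hC8 : 16 ≤ C := by rw [hCdef]; linarith
  have hεB : ε * (C * n ^ 2 + 4) ≤ 1 / 8 := by
    have h9 : ε * (C * n ^ 2 + 4 + 1) = ε * (C * n ^ 2 + 4) + ε := by ring
    linarith
  -- the two small terms
  have e1 : -(1 / 4) ≤ (x2 - x1 - (κ2 - κ1)) * (y3 - y1) := by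
    have t1 : 0 ≤ y3 - y1 := by linarith
    have t2 : y3 - y1 ≤ C * n ^ 2 + 4 := by linarith
    have t3 : -(2 * ε) ≤ x2 - x1 - (κ2 - κ1) := by linarith
    have t4 : -(2 * ε) * (y3 - y1) ≤ (x2 - x1 - (κ2 - κ1)) * (y3 - y1) :=
      mul_le_mul_of_nonneg_right t3 t1
    have t5 : (2 * ε) * (y3 - y1) ≤ (2 * ε) * (C * n ^ 2 + 4) :=
      mul_le_mul_of_nonneg_left t2 (by linarith)
    have t6 : -(2 * ε) * (y3 - y1) = -((2 * ε) * (y3 - y1)) := by ring
    have t7 : (2 * ε) * (C * n ^ 2 + 4) = 2 * (ε * (C * n ^ 2 + 4)) := by ring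
    linarith
  have e2 : (x3 - x1 - (κ3 - κ1)) * (y2 - y1) ≤ 1 / 4 := by
    have t1 : 0 ≤ y2 - y1 := by linarith
    have t2 : y2 - y1 ≤ C * n ^ 2 + 4 := by linarith
    have t3 : x3 - x1 - (κ3 - κ1) ≤ 2 * ε := by linarith
    have t4 : (x3 - x1 - (κ3 - κ1)) * (y2 - y1) ≤ (2 * ε) * (y2 - y1) :=
      mul_le_mul_of_nonneg_right t3 t1
    have t5 : (2 * ε) * (y2 - y1) ≤ (2 * ε) * (C * n ^ 2 + 4) :=
      mul_le_mul_of_nonneg_left t2 (by linarith)
    have t7 : (2 * ε) * (C * n ^ 2 + 4) = 2 * (ε * (C * n ^ 2 + 4)) := by ring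
    linarith
  -- the main terms
  have m1 : (κ2 - κ1) * (C * κ3 ^ 2 - C * κ1 ^ 2 - 3) ≤ (κ2 - κ1) * (y3 - y1) :=
    mul_le_mul_of_nonneg_left (by linarith) (by linarith)
  have m2 : (κ3 - κ1) * (y2 - y1) ≤ (κ3 - κ1) * (C * κ2 ^ 2 - C * κ1 ^ 2 + 3) :=
    mul_le_mul_of_nonneg_left (by linarith) (by linarith)
  have m3 : (κ2 - κ1) * (C * κ3 ^ 2 - C * κ1 ^ 2 - 3) - (κ3 - κ1) * (C * κ2 ^ 2 - C * κ1 ^ 2 + 3) =
      C * ((κ2 - κ1) * ((κ3 - κ1) * (κ3 - κ2))) - 3 * (κ2 - κ1) - 3 * (κ3 - κ1) := by ring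
  have m4 : (2 : ℝ) ≤ (κ3 - κ1) * (κ3 - κ2) := by nlinarith
  have m5 : (2 : ℝ) ≤ (κ2 - κ1) * ((κ3 - κ1) * (κ3 - κ2)) := by nlinarith
  have m6 : C * 2 ≤ C * ((κ2 - κ1) * ((κ3 - κ1) * (κ3 - κ2))) := mul_le_mul_of_nonneg_left m5 hC.le
  have m7 : C * 2 = 8 * (n + 2) := by rw [hCdef]; ring
  have m8 : (x2 - x1) * (y3 - y1) = (κ2 - κ1) * (y3 - y1) + (x2 - x1 - (κ2 - κ1)) * (y3 - y1) := by
    ring
  have m9 : (x3 - x1) * (y2 - y1) = (κ3 - κ1) * (y2 - y1) + (x3 - x1 - (κ3 - κ1)) * (y2 - y1) := by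
    ring
  rw [m8, m9]
  linarith

end Pool.Agent.V7H18.Helly
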