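import Pool.Agent.V7H18.HellyA
set_option autoImplicit false
namespace Pool.Agent.V7H18.Helly

lemma kap_ge (i : ℕ) : 1 ≤ kap i := by
  unfold kap
  have : (0 : ℝ) ≤ cl i := by positivity
  linarith

lemma kap_le {N i : ℕ} (h2 : 2 ≤ i) (h : i < 3 * N + 2) : kap i ≤ N := by
  unfold kap cl
  have h1 : (i - 2) / 3 + 1 ≤ N := by omega
  exact_mod_cast h1

lemma kap_lt {i j : ℕ} (h : cl i < cl j) : kap i + 1 ≤ kap j := by
  unfold kap
  have h1 : cl i + 1 ≤ cl j := h
  have h2 : (cl i : ℝ) + 1 ≤ cl j := by exact_mod_cast h1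
  linarith

lemma YY_nonneg (N i : ℕ) : 0 ≤ YY N i := by
  unfold YY CC
  positivity

lemma YY_le {N i : ℕ} (h2 : 2 ≤ i) (h : i < 3 * N + 2) : YY N i + 4 ≤ BB N := by
  unfold YY BB
  have h1 : kap i ^ 2 ≤ (N : ℝ) ^ 2 := by
    apply pow_le_pow_left₀
    · linarith [kap_ge i]
    · exact kap_le h2 h
  have h3 : 0 ≤ CC N := by unfold CC; positivity
  nlinarith [mul_le_mul_of_nonneg_left h1 h3]

/-- the sign pattern of the base configuration -/
def Neg (i j k : ℕ) : Prop := 2 ≤ i ∧ cl i = cl j ∧ cl j ≠ cl k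

lemma adm_sign {N : ℕ} {ε : ℝ} {S : Set ℕ} {x y : ℕ → ℝ} (h : Adm N ε S x y) (hε0 : 0 ≤ ε)
    (hε : 8 * (ε * (BB N + 1)) ≤ 1) {i j k : ℕ} (hij : i < j) (hjk : j < k) (hk : k < 3 * N + 2)
    (hi : i ∈ S) : (Neg i j k → D x y i j k < 0) ∧ (¬ Neg i j k → 0 < D x y i j k) := by
  have hB : 0 ≤ BB N := by unfold BB CC; positivity
  have hk2 : 2 ≤ k := by omega
  have hyk : 0 < y k := by linarith [h.hy1 k hk2 hk, YY_nonneg N k]
  have hε' : 8 * (ε * (4 * ((N : ℝ) + 2) * (N : ℝ) ^ 2 + 4 + 1)) ≤ 1 := hε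
  -- the case in which the first point is on the axis
  have axis : ∀ a : ℝ, -1 ≤ a → a ≤ 0 → 2 ≤ j → 0 < (x j - a) * y k - (x k - a) * y j := by
    intro a ha ha0 hj2
    have hj : j < 3 * N + 2 := by omega
    by_cases hc : cl j = cl k
    · have hkk : kap j = kap k := by unfold kap; rw [hc]
      exact Asame ha0 (kap_ge j) hε0 hε (h.hx j hj2 hj) (hkk ▸ h.hx k hk2 hk)
        (by linarith [h.hy1 j hj2 hj, YY_nonneg N j])
        (by linarith [h.hy2 j hj2 hj, YY_le hj2 hj]) (h.hyy j k hj2 hjk hk hc)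
    · have hlt : cl j < cl k := by unfold cl at hc ⊢; omega
      exact Adiff ha ha0 (kap_ge j) (kap_lt hlt) (kap_le hk2 hk) hε0 hε' (h.hx j hj2 hj)
        (h.hx k hk2 hk) (by linarith [h.hy1 j hj2 hj, YY_nonneg N j]) (h.hy2 j hj2 hj)
        (h.hy1 k hk2 hk)
  rcases Nat.lt_or_ge i 2 with hi2 | hi2
  · have hnn : ¬ Neg i j k := fun hn => by
      have := hn.1
      omega
    refine ⟨fun hn => absurd hn hnn, fun _ => ?_⟩
    unfold D
    rcases Nat.lt_or_ge j 2 with hj2 | hj2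
    · have hi0 : i = 0 := by omega
      have hj1 : j = 1 := by omega
      subst hi0 hj1
      rw [h.x0, h.y0, h.x1, h.y1]
      linarith
    · rcases Nat.lt_or_ge i 1 with h1 | h1
      · have hi0 : i = 0 := by omega
        subst hi0
        rw [h.x0, h.y0]
        have := axis (-1) le_rfl (by norm_num) hj2
        linarith
      · have hi0 : i = 1 := by omega
        subst hi0
        rw [h.x1, h.y1]
        have := axis 0 (by norm_num) le_rfl hj2
        linarith
  · have hj2 : 2 ≤ j := by omega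
    have hin : i < 3 * N + 2 := by omega
    have hjn : j < 3 * N + 2 := by omega
    have hyi : 0 ≤ y i := by linarith [h.hy1 i hi2 hin, YY_nonneg N i]
    by_cases hcij : cl i = cl j
    · have hkk : kap i = kap j := by unfold kap; rw [hcij]
      by_cases hcjk : cl j = cl k
      · refine ⟨fun hn => absurd hcjk hn.2.2, fun _ => ?_⟩
        have hp : ps i = 0 ∧ j = i + 1 ∧ k = i + 2 := by
          unfold cl at hcij hcjk
          unfold ps
          omega
        obtain ⟨hp0, hp1, hp2⟩ := hp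
        subst hp1 hp2
        exact h.tri i hi2 hin hp0 hi
      · refine ⟨fun _ => ?_, fun hn => absurd ⟨hi2, hcij, hcjk⟩ hn⟩
        have hlt : cl j < cl k := by unfold cl at hcjk ⊢; omega
        unfold D
        have hkk' := kap_lt hlt
        have hYY : YY N j + 4 ≤ YY N k := by
          unfold YY CC
          have h1 := kap_ge j
          have h2 : kap j ^ 2 + 1 ≤ kap k ^ 2 := by nlinarith
          have h3 : (0 : ℝ) ≤ N := by positivity
          nlinarith
        refine L4 hB hε0 hε (h.hx i hi2 hin) (hkk ▸ h.hx j hj2 hjn) (h.hx k hk2 hk)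
          (hkk ▸ hkk') hyi (by linarith [h.hy2 k hk2 hk, YY_le hk2 hk]) ?_ (h.hyy i j hi2 hij hjn hcij)
        have h5 := h.hy2 j hj2 hjn
        have h6 := h.hyy i j hi2 hij hjn hcij
        have h7 := h.hy1 k hk2 hk
        linarith
    · have hlt : cl i < cl j := by unfold cl at hcij ⊢; omega
      refine ⟨fun hn => absurd hn.2.1 hcij, fun _ => ?_⟩
      unfold D
      have hkk' := kap_lt hlt
      have hYY : YY N i + 4 ≤ YY N j := by
        unfold YY CC
        have h1 := kap_ge i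
        have h2 : kap i ^ 2 + 1 ≤ kap j ^ 2 := by nlinarith
        have h3 : (0 : ℝ) ≤ N := by positivity
        nlinarith
      by_cases hcjk : cl j = cl k
      · have hkk : kap j = kap k := by unfold kap; rw [hcjk]
        exact L5 hB hε0 hε (h.hx i hi2 hin) (h.hx j hj2 hjn) (hkk ▸ h.hx k hk2 hk) hkk' hyi
          (by linarith [h.hy2 j hj2 hjn, YY_le hj2 hjn])
          (by linarith [h.hy2 i hi2 hin, h.hy1 j hj2 hjn]) (h.hyy j k hj2 hjk hk hcjk)
      · have hlt2 : cl j < cl k := by unfold cl at hcjk ⊢; omega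
        exact L6 hε0 hε' (h.hx i hi2 hin) (h.hx j hj2 hjn) (h.hx k hk2 hk) (kap_ge i) hkk'
          (kap_lt hlt2) (kap_le hk2 hk) (h.hy1 i hi2 hin) (h.hy2 i hi2 hin) (h.hy1 j hj2 hjn)
          (h.hy2 j hj2 hjn) (h.hy1 k hk2 hk) (h.hy2 k hk2 hk)

/-- row of a point of the plane -/
def u3 (x y : ℝ) : Fin 3 → ℝ := ![1, x, y]

lemma det_u3 (x y : ℕ → ℝ) (s : Fin 3 → ℕ) :
    (Matrix.of fun j => u3 (x (s j)) (y (s j))).det = D x y (s 0) (s 1) (s 2) := by
  rw [Matrix.det_fin_three]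
  simp [u3, D]
  ring

lemma rel_of_sorted {n r : ℕ} (S : Set (Fin n)) (X P : Fin n → Fin r → ℝ)
    (h : ∀ s : Fin r → Fin n, StrictMono s → (∀ j, s j ∈ S) →
      0 < (Matrix.of fun j => X (s j)).det * (Matrix.of fun j => P (s j)).det) : Rel S X P := by
  intro s hs hm
  have hmono := Tuple.monotone_sort s
  have hstrict : StrictMono (s ∘ Tuple.sort s) :=
    hmono.strictMono_of_injective (hs.comp (Tuple.sort s).injective)
  have h1 := h _ hstrict (fun j => hm _)
  have h2 : ∀ Y : Fin n → Fin r → ℝ, (Matrix.of fun j => Y ((s ∘ Tuple.sort s) j)).det =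
      ((Equiv.Perm.sign (Tuple.sort s) : ℤ) : ℝ) * (Matrix.of fun j => Y (s j)).det := by
    intro Y
    rw [← Matrix.det_permute]
    rfl
  rw [h2, h2] at h1
  have h3 : ((Equiv.Perm.sign (Tuple.sort s) : ℤ) : ℝ) *
      ((Equiv.Perm.sign (Tuple.sort s) : ℤ) : ℝ) = 1 := by
    rw [← Int.cast_mul, ← Units.val_mul, Int.units_mul_self]
    simp
  calc (0 : ℝ) < _ := h1
    _ = (((Equiv.Perm.sign (Tuple.sort s) : ℤ) : ℝ) * ((Equiv.Perm.sign (Tuple.sort s) : ℤ) : ℝ)) *
      ((Matrix.of fun j => X (s j)).det * (Matrix.of fun j => P (s j)).det) := by ring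
    _ = _ := by rw [h3, one_mul]

lemma adm_rel {N : ℕ} {ε : ℝ} {S : Set ℕ} {x y x' y' : ℕ → ℝ} (h : Adm N ε S x y)
    (h' : Adm N ε S x' y') (hε0 : 0 ≤ ε) (hε : 8 * (ε * (BB N + 1)) ≤ 1) :
    Rel (r := 3) {i : Fin (3 * N + 2) | i.val ∈ S} (fun i => u3 (x i) (y i))
      (fun i => u3 (x' i) (y' i)) := by
  apply rel_of_sorted
  intro s hs hm
  have e1 := det_u3 x y (fun j => (s j).val)
  have e2 := det_u3 x' y' (fun j => (s j).val)
  rw [e1, e2]
  have h01 : (s 0).val < (s 1).val := hs (by decide)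
  have h12 : (s 1).val < (s 2).val := hs (by decide)
  have a1 := adm_sign h hε0 hε h01 h12 (s 2).2 (hm 0)
  have a2 := adm_sign h' hε0 hε h01 h12 (s 2).2 (hm 0)
  by_cases hn : Neg (s 0).val (s 1).val (s 2).val
  · exact mul_pos_of_neg_of_neg (a1.1 hn) (a2.1 hn)
  · exact mul_pos (a1.2 hn) (a2.2 hn)

end Pool.Agent.V7H18.Helly
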