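import Pool.Agent.V7H18.HellyB
set_option autoImplicit false
namespace Pool.Agent.V7H18.Helly

/-- the sets of the base configuration, in coordinates `(x, (y, z))` -/
noncomputable def base (N : ℕ) (η : ℝ) (i : ℕ) : Set (ℝ × ℝ × ℝ) :=
  if i = 0 then {(-1, 0, 0)} else if i = 1 then {(0, 0, 0)} else
  if ps i = 0 then {b | b.2.1 = YY N i + 1 ∧ 0 ≤ b.2.2 ∧ b.2.2 ≤ N * b.2.1 ∧
    (b.1 - kap i) * (YY N i + 1) = η * (3 * b.2.2 - (3 * cl i + 1) * (YY N i + 1))}
  else if ps i = 1 then {b | b.1 = kap i ∧ YY N i + 2 ≤ b.2.1 ∧ b.2.1 ≤ YY N i + 3 ∧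
    0 ≤ b.2.2 ∧ b.2.2 ≤ N * b.2.1}
  else {b | b.2.1 = YY N i + 4 ∧ 0 ≤ b.2.2 ∧ b.2.2 ≤ N * b.2.1 ∧
    (b.1 - kap i) * (YY N i + 4) = -(η * (3 * b.2.2 - (3 * cl i + 2) * (YY N i + 4)))}

/-- positions in the plane `z = θ y` -/
noncomputable def px (η θ : ℝ) (i : ℕ) : ℝ :=
  if i = 0 then -1 else if i = 1 then 0 else if ps i = 0 then kap i + η * (3 * θ - (3 * cl i + 1))
  else if ps i = 1 then kap i else kap i - η * (3 * θ - (3 * cl i + 2))

/-- positions in the plane `z = θ y` -/
noncomputable def py (N : ℕ) (θ : ℝ) (i : ℕ) : ℝ :=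
  if i = 0 then 0 else if i = 1 then 0 else if ps i = 0 then YY N i + 1
  else if ps i = 1 then (if θ < cl i then YY N i + 2 else YY N i + 3) else YY N i + 4

/-- the labelling points -/
noncomputable def qx (η : ℝ) (i : ℕ) : ℝ :=
  if i = 0 then -1 else if i = 1 then 0 else if ps i = 1 then kap i else kap i - η

/-- the labelling points -/
noncomputable def qy (N : ℕ) (i : ℕ) : ℝ :=
  if i = 0 then 0 else if i = 1 then 0 else if ps i = 0 then YY N i + 1
  else if ps i = 1 then YY N i + 5 / 2 else YY N i + 4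

lemma ps_cases (i : ℕ) : ps i = 0 ∨ ps i = 1 ∨ ps i = 2 := by
  unfold ps
  omega

lemma mem_base (N : ℕ) (η θ : ℝ) (h0 : 0 ≤ θ) (hN : θ ≤ N) (i : ℕ) :
    (px η θ i, py N θ i, θ * py N θ i) ∈ base N η i := by
  have hY := YY_nonneg N i
  have hmul : ∀ t : ℝ, 0 ≤ t → θ * t ≤ N * t := fun t ht => mul_le_mul_of_nonneg_right hN ht
  unfold px py base
  split_ifs with h1 h2 h3 h4 h5 h6
  · simp
  · simp
  · refine ⟨rfl, by positivity, hmul _ (by linarith), ?_⟩
    simp only
    ring
  · refine ⟨rfl, by simp only; linarith, by simp only; linarith, by positivity, hmul _ (by linarith)⟩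
  · refine ⟨rfl, by simp only; linarith, by simp only; linarith, by positivity, hmul _ (by linarith)⟩
  · refine ⟨rfl, by positivity, hmul _ (by linarith), ?_⟩
    simp only
    ring

lemma adm_label (N : ℕ) {η ε : ℝ} (hη : 0 < η) (hε : η ≤ ε) (S : Set ℕ) :
    Adm N ε S (qx η) (qy N) where
  x0 := by simp [qx]
  y0 := by simp [qy]
  x1 := by simp [qx]
  y1 := by simp [qy]
  hx i h2 _ := by
    unfold qx
    split_ifs with h1 h3 h4
    · omega
    · omega
    · simp
      linarith
    · rw [abs_le]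
      constructor <;> linarith
  hy1 i h2 _ := by
    unfold qy
    split_ifs <;> first | omega | linarith
  hy2 i h2 _ := by
    unfold qy
    split_ifs <;> first | omega | linarith
  hyy i j h2 hij _ hc := by
    have hYY : YY N i = YY N j := by unfold YY kap; rw [hc]
    have hps : ps i < ps j := by
      unfold cl at hc
      unfold ps
      omega
    unfold qy
    rw [hYY]
    rcases ps_cases i with h | h | h <;> rcases ps_cases j with h' | h' | h' <;>
      simp [h, h', show i ≠ 0 by omega, show i ≠ 1 by omega, show j ≠ 0 by omega,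
        show j ≠ 1 by omega] <;> first | omega | linarith
  tri i h2 _ hp _ := by
    have hc1 : cl (i + 1) = cl i := by unfold ps at hp; unfold cl; omega
    have hc2 : cl (i + 2) = cl i := by unfold ps at hp; unfold cl; omega
    have hp1 : ps (i + 1) = 1 := by unfold ps at hp ⊢; omega
    have hp2 : ps (i + 2) = 2 := by unfold ps at hp ⊢; omega
    have hk1 : kap (i + 1) = kap i := by unfold kap; rw [hc1]
    have hk2 : kap (i + 2) = kap i := by unfold kap; rw [hc2]
    have hy1 : YY N (i + 1) = YY N i := by unfold YY; rw [hk1]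
    have hy2 : YY N (i + 2) = YY N i := by unfold YY; rw [hk2]
    unfold D qx qy
    simp only [hp, hp1, hp2, hk1, hk2, hy1, hy2, show i ≠ 0 by omega, show i ≠ 1 by omega,
      show i + 1 ≠ 0 by omega, show i + 1 ≠ 1 by omega, show i + 2 ≠ 0 by omega,
      show i + 2 ≠ 1 by omega, if_false, if_true, show (2 : ℕ) ≠ 0 by norm_num,
      show (2 : ℕ) ≠ 1 by norm_num, show (1 : ℕ) ≠ 0 by norm_num, show (0 : ℕ) ≠ 1 by norm_num]
    nlinarith

lemma adm_pos (N : ℕ) {η ε θ : ℝ} (hη : 0 < η) (hε : 3 * N * η ≤ ε) (k : ℕ) (hk : k < N)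
    (hθ : θ = k + 1 / 2) :
    Adm N ε {i | i < 2 ∨ cl i ≠ k} (px η θ) (py N θ) where
  x0 := by simp [px]
  y0 := by simp [py]
  x1 := by simp [px]
  y1 := by simp [py]
  hx i h2 hi := by
    have hcl : (cl i : ℝ) + 1 ≤ N := kap_le h2 hi
    have hcl0 : (0 : ℝ) ≤ cl i := by positivity
    have hk' : (k : ℝ) + 1 ≤ N := by exact_mod_cast hk
    have hk0 : (0 : ℝ) ≤ k := by positivity
    unfold px
    split_ifs with h1 h3 h4 h5
    · omega
    · omega
    · rw [add_sub_cancel_left, abs_mul, abs_of_pos hη]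
      have h6 : |3 * θ - (3 * (cl i : ℝ) + 1)| ≤ 3 * N := by
        rw [abs_le, hθ]
        constructor <;> linarith
      calc η * |3 * θ - (3 * (cl i : ℝ) + 1)| ≤ η * (3 * N) := mul_le_mul_of_nonneg_left h6 hη.le
        _ = 3 * N * η := by ring
        _ ≤ ε := hε
    · rw [sub_self, abs_zero]
      exact le_trans (by positivity) hε
    · have h7 : kap i - η * (3 * θ - (3 * (cl i : ℝ) + 2)) - kap i =
          -(η * (3 * θ - (3 * (cl i : ℝ) + 2))) := by ring
      rw [h7, abs_neg, abs_mul, abs_of_pos hη]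
      have h6 : |3 * θ - (3 * (cl i : ℝ) + 2)| ≤ 3 * N := by
        rw [abs_le, hθ]
        constructor <;> linarith
      calc η * |3 * θ - (3 * (cl i : ℝ) + 2)| ≤ η * (3 * N) := mul_le_mul_of_nonneg_left h6 hη.le
        _ = 3 * N * η := by ring
        _ ≤ ε := hε
  hy1 i h2 _ := by
    unfold py
    split_ifs <;> first | omega | linarith
  hy2 i h2 _ := by
    unfold py
    split_ifs <;> first | omega | linarith
  hyy i j h2 hij _ hc := by
    have hYY : YY N i = YY N j := by unfold YY kap; rw [hc]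
    have hps : ps i < ps j := by
      unfold cl at hc
      unfold ps
      omega
    unfold py
    rw [hYY, hc]
    rcases ps_cases i with h | h | h <;> rcases ps_cases j with h' | h' | h' <;>
      simp [h, h', show i ≠ 0 by omega, show i ≠ 1 by omega, show j ≠ 0 by omega,
        show j ≠ 1 by omega] <;> first | omega | linarith | (split_ifs <;> linarith)
  tri i h2 hi hp hS := by
    have hc1 : cl (i + 1) = cl i := by unfold ps at hp; unfold cl; omega
    have hc2 : cl (i + 2) = cl i := by unfold ps at hp; unfold cl; omega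
    have hp1 : ps (i + 1) = 1 := by unfold ps at hp ⊢; omega
    have hp2 : ps (i + 2) = 2 := by unfold ps at hp ⊢; omega
    have hk1 : kap (i + 1) = kap i := by unfold kap; rw [hc1]
    have hk2 : kap (i + 2) = kap i := by unfold kap; rw [hc2]
    have hy1 : YY N (i + 1) = YY N i := by unfold YY; rw [hk1]
    have hy2 : YY N (i + 2) = YY N i := by unfold YY; rw [hk2]
    have hne : cl i ≠ k := by
      rcases hS with h | h
      · omega
      · exact h
    unfold D px py
    simp only [hp, hp1, hp2, hk1, hk2, hy1, hy2, hc1, hc2, show i ≠ 0 by omega,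
      show i ≠ 1 by omega,
      show i + 1 ≠ 0 by omega, show i + 1 ≠ 1 by omega, show i + 2 ≠ 0 by omega,
      show i + 2 ≠ 1 by omega, if_false, if_true, show (2 : ℕ) ≠ 0 by norm_num,
      show (2 : ℕ) ≠ 1 by norm_num, show (1 : ℕ) ≠ 0 by norm_num, show (0 : ℕ) ≠ 1 by norm_num]
    split_ifs with hlt
    · have : (kap i - (kap i + η * (3 * θ - (3 * (cl i : ℝ) + 1)))) *
          (YY N i + 4 - (YY N i + 1)) - (kap i - η * (3 * θ - (3 * (cl i : ℝ) + 2)) -
          (kap i + η * (3 * θ - (3 * (cl i : ℝ) + 1)))) * (YY N i + 2 - (YY N i + 1)) =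
          3 * (η * (cl i - θ)) := by ring
      rw [this]
      have : 0 < (cl i : ℝ) - θ := by linarith
      positivity
    · have : (kap i - (kap i + η * (3 * θ - (3 * (cl i : ℝ) + 1)))) *
          (YY N i + 4 - (YY N i + 1)) - (kap i - η * (3 * θ - (3 * (cl i : ℝ) + 2)) -
          (kap i + η * (3 * θ - (3 * (cl i : ℝ) + 1)))) * (YY N i + 3 - (YY N i + 1)) =
          3 * (η * (θ - cl i - 1)) := by ring
      rw [this]
      have h8 : cl i < k := by
        rcases Nat.lt_trichotomy (cl i) k with h | h | h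
        · exact h
        · exact absurd h hne
        · exfalso
          apply hlt
          rw [hθ]
          have : (k : ℝ) + 1 ≤ cl i := by exact_mod_cast h
          linarith
      have h9 : (cl i : ℝ) + 1 ≤ k := by exact_mod_cast h8
      have : 0 < θ - (cl i : ℝ) - 1 := by
        rw [hθ]
        linarith
      positivity

/-- the wrong orientation of the cluster `l` in the plane `z = θ y` for `l ≤ θ ≤ l + 1` -/
lemma wrong (N : ℕ) {η θ : ℝ} (hη : 0 < η) (l : ℕ) (h1 : (l : ℝ) ≤ θ) (h2 : θ ≤ l + 1)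
    (b : ℕ → ℝ × ℝ × ℝ) (hb : ∀ i, b i ∈ base N η i) (hz : ∀ i, (b i).2.2 = θ * (b i).2.1) :
    D (fun i => (b i).1) (fun i => (b i).2.1) (3 * l + 2) (3 * l + 3) (3 * l + 4) ≤ 0 := by
  have e0 : ps (3 * l + 2) = 0 := by unfold ps; omega
  have e1 : ps (3 * l + 3) = 1 := by unfold ps; omega
  have e2 : ps (3 * l + 4) = 2 := by unfold ps; omega
  have c0 : cl (3 * l + 2) = l := by unfold cl; omega
  have c1 : cl (3 * l + 3) = l := by unfold cl; omega
  have c2 : cl (3 * l + 4) = l := by unfold cl; omega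
  have hy1 : YY N (3 * l + 3) = YY N (3 * l + 2) := by unfold YY kap; rw [c0, c1]
  have hy2 : YY N (3 * l + 4) = YY N (3 * l + 2) := by unfold YY kap; rw [c0, c2]
  have hk1 : kap (3 * l + 3) = kap (3 * l + 2) := by unfold kap; rw [c0, c1]
  have hk2 : kap (3 * l + 4) = kap (3 * l + 2) := by unfold kap; rw [c0, c2]
  have hY := YY_nonneg N (3 * l + 2)
  have b0 := hb (3 * l + 2)
  have b1 := hb (3 * l + 3)
  have b2 := hb (3 * l + 4)
  unfold base at b0 b1 b2
  simp only [e0, e1, e2, c0, c1, c2, hy1, hy2, hk1, hk2, show 3 * l + 2 ≠ 0 by omega,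
    show 3 * l + 2 ≠ 1 by omega, show 3 * l + 3 ≠ 0 by omega, show 3 * l + 3 ≠ 1 by omega,
    show 3 * l + 4 ≠ 0 by omega, show 3 * l + 4 ≠ 1 by omega, if_false, if_true,
    show (2 : ℕ) ≠ 0 by norm_num,
    show (2 : ℕ) ≠ 1 by norm_num, show (1 : ℕ) ≠ 0 by norm_num, Set.mem_setOf_eq] at b0 b1 b2
  obtain ⟨p1, -, -, p2⟩ := b0
  obtain ⟨q1, q2, q3, -, -⟩ := b1
  obtain ⟨r1, -, -, r2⟩ := b2
  have z0 := hz (3 * l + 2)
  have z2 := hz (3 * l + 4)
  set Y := YY N (3 * l + 2) with hYdef
  set κ := kap (3 * l + 2) with hκdef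
  have hx0 : (b (3 * l + 2)).1 = κ + η * (3 * θ - (3 * l + 1)) := by
    rw [z0, p1] at p2
    have h3 : Y + 1 ≠ 0 := by linarith
    have h4 : ((b (3 * l + 2)).1 - κ) * (Y + 1) = (η * (3 * θ - (3 * l + 1))) * (Y + 1) := by
      rw [p2]
      ring
    have h5 := mul_right_cancel₀ h3 h4
    linarith
  have hx2 : (b (3 * l + 4)).1 = κ - η * (3 * θ - (3 * l + 2)) := by
    rw [z2, r1] at r2
    have h3 : Y + 4 ≠ 0 := by linarith
    have h4 : ((b (3 * l + 4)).1 - κ) * (Y + 4) = (-(η * (3 * θ - (3 * l + 2)))) * (Y + 4) := by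
      rw [r2]
      ring
    have h5 := mul_right_cancel₀ h3 h4
    linarith
  unfold D
  simp only
  rw [hx0, hx2, q1, p1, r1]
  set s := (b (3 * l + 3)).2.1 - (Y + 1) with hs
  have hs1 : 1 ≤ s := by linarith
  have hs2 : s ≤ 2 := by linarith
  have h6 : (κ - (κ + η * (3 * θ - (3 * l + 1)))) * (Y + 4 - (Y + 1)) -
      (κ - η * (3 * θ - (3 * l + 2)) - (κ + η * (3 * θ - (3 * l + 1)))) * s =
      -(3 * (η * ((2 - s) * (θ - l) + (s - 1) * (l + 1 - θ)))) := by ring
  rw [h6]
  have h7 : 0 ≤ (2 - s) * (θ - l) + (s - 1) * (l + 1 - θ) := by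
    apply add_nonneg <;> apply mul_nonneg <;> linarith
  have h8 : 0 ≤ 3 * (η * ((2 - s) * (θ - l) + (s - 1) * (l + 1 - θ))) := by positivity
  linarith

end Pool.Agent.V7H18.Helly
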