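import Pool.Agent.V7H18.HellyC
set_option autoImplicit false
namespace Pool.Agent.V7H18.Helly

lemma base_convex (N : ℕ) (η : ℝ) (i : ℕ) : Convex ℝ (base N η i) := by
  intro u hu v hv a b ha hb hab
  have hb' : b = 1 - a := by linarith
  unfold base at hu hv ⊢
  split_ifs at hu hv ⊢ with h1 h2 h3 h4
  · rw [Set.mem_singleton_iff] at hu hv ⊢
    subst hu hv hb'
    refine Prod.ext ?_ (Prod.ext ?_ ?_) <;> simp <;> ring
  · rw [Set.mem_singleton_iff] at hu hv ⊢
    subst hu hv hb'
    refine Prod.ext ?_ (Prod.ext ?_ ?_) <;> simp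
  · obtain ⟨u1, u2, u3, u4⟩ := hu
    obtain ⟨v1, v2, v3, v4⟩ := hv
    refine ⟨?_, ?_, ?_, ?_⟩
    · simp only [Prod.snd_add, Prod.fst_add, Prod.smul_snd, Prod.smul_fst, smul_eq_mul]
      rw [u1, v1, hb']
      ring
    · simp only [Prod.snd_add, Prod.smul_snd, smul_eq_mul]
      positivity
    · simp only [Prod.snd_add, Prod.fst_add, Prod.smul_snd, Prod.smul_fst, smul_eq_mul]
      have := mul_le_mul_of_nonneg_left u3 ha
      have := mul_le_mul_of_nonneg_left v3 hb
      nlinarith
    · simp only [Prod.snd_add, Prod.fst_add, Prod.smul_snd, Prod.smul_fst, smul_eq_mul]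
      subst hb'
      linear_combination a * u4 + (1 - a) * v4
  · obtain ⟨u1, u2, u3, u4, u5⟩ := hu
    obtain ⟨v1, v2, v3, v4, v5⟩ := hv
    refine ⟨?_, ?_, ?_, ?_, ?_⟩
    · simp only [Prod.fst_add, Prod.smul_fst, smul_eq_mul]
      rw [u1, v1, hb']
      ring
    · simp only [Prod.snd_add, Prod.fst_add, Prod.smul_snd, Prod.smul_fst, smul_eq_mul]
      subst hb'
      nlinarith [mul_le_mul_of_nonneg_left u2 ha, mul_le_mul_of_nonneg_left v2 hb]
    · simp only [Prod.snd_add, Prod.fst_add, Prod.smul_snd, Prod.smul_fst, smul_eq_mul]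
      subst hb'
      nlinarith [mul_le_mul_of_nonneg_left u3 ha, mul_le_mul_of_nonneg_left v3 hb]
    · simp only [Prod.snd_add, Prod.smul_snd, smul_eq_mul]
      positivity
    · simp only [Prod.snd_add, Prod.fst_add, Prod.smul_snd, Prod.smul_fst, smul_eq_mul]
      have := mul_le_mul_of_nonneg_left u5 ha
      have := mul_le_mul_of_nonneg_left v5 hb
      nlinarith
  · obtain ⟨u1, u2, u3, u4⟩ := hu
    obtain ⟨v1, v2, v3, v4⟩ := hv
    refine ⟨?_, ?_, ?_, ?_⟩
    · simp only [Prod.snd_add, Prod.fst_add, Prod.smul_snd, Prod.smul_fst, smul_eq_mul]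
      rw [u1, v1, hb']
      ring
    · simp only [Prod.snd_add, Prod.smul_snd, smul_eq_mul]
      positivity
    · simp only [Prod.snd_add, Prod.fst_add, Prod.smul_snd, Prod.smul_fst, smul_eq_mul]
      have := mul_le_mul_of_nonneg_left u3 ha
      have := mul_le_mul_of_nonneg_left v3 hb
      nlinarith
    · simp only [Prod.snd_add, Prod.fst_add, Prod.smul_snd, Prod.smul_fst, smul_eq_mul]
      subst hb'
      linear_combination a * u4 + (1 - a) * v4

lemma base_closed (N : ℕ) (η : ℝ) (i : ℕ) : IsClosed (base N η i) := by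
  unfold base
  split_ifs with h1 h2 h3 h4
  · exact isClosed_singleton
  · exact isClosed_singleton
  · refine IsClosed.and (isClosed_eq (by fun_prop) (by fun_prop)) (IsClosed.and
      (isClosed_le (by fun_prop) (by fun_prop)) (IsClosed.and
      (isClosed_le (by fun_prop) (by fun_prop)) (isClosed_eq (by fun_prop) (by fun_prop))))
  · refine IsClosed.and (isClosed_eq (by fun_prop) (by fun_prop)) (IsClosed.and
      (isClosed_le (by fun_prop) (by fun_prop)) (IsClosed.and
      (isClosed_le (by fun_prop) (by fun_prop)) (IsClosed.and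
      (isClosed_le (by fun_prop) (by fun_prop)) (isClosed_le (by fun_prop) (by fun_prop)))))
  · refine IsClosed.and (isClosed_eq (by fun_prop) (by fun_prop)) (IsClosed.and
      (isClosed_le (by fun_prop) (by fun_prop)) (IsClosed.and
      (isClosed_le (by fun_prop) (by fun_prop)) (isClosed_eq (by fun_prop) (by fun_prop))))

lemma base_bdd (N : ℕ) {η : ℝ} (hη : 0 < η) (i : ℕ) :
    ∃ R : ℝ, ∀ b ∈ base N η i, |b.1| ≤ R ∧ |b.2.1| ≤ R ∧ |b.2.2| ≤ R := by
  have hY := YY_nonneg N i
  have hκ := kap_ge i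
  have hN : (0 : ℝ) ≤ N := by positivity
  have hcl : (0 : ℝ) ≤ cl i := by positivity
  have h11 : N * (YY N i + 4) ≥ 0 := by positivity
  have hbig : 0 ≤ (η * (3 * (N * (YY N i + 4)) + (3 * cl i + 2) * (YY N i + 4))) := by positivity
  refine ⟨1 + kap i + YY N i + 4 + N * (YY N i + 4) +
    (η * (3 * (N * (YY N i + 4)) + (3 * cl i + 2) * (YY N i + 4))), ?_⟩
  intro b hb
  unfold base at hb
  split_ifs at hb with h1 h2 h3 h4
  · rw [Set.mem_singleton_iff] at hb
    subst hb
    simp only [abs_neg, abs_one, abs_zero]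
    refine ⟨?_, ?_, ?_⟩ <;> linarith
  · rw [Set.mem_singleton_iff] at hb
    subst hb
    simp only [abs_zero]
    refine ⟨?_, ?_, ?_⟩ <;> linarith
  · obtain ⟨u1, u2, u3, u4⟩ := hb
    have hz : b.2.2 ≤ N * (YY N i + 4) := by
      rw [u1] at u3
      nlinarith
    refine ⟨?_, ?_, ?_⟩
    · have h5 : |b.1 - kap i| ≤ η * (3 * (N * (YY N i + 4)) + (3 * cl i + 2) * (YY N i + 4)) := by
        have h6 : |b.1 - kap i| * 1 ≤ |b.1 - kap i| * (YY N i + 1) :=
          mul_le_mul_of_nonneg_left (by linarith) (abs_nonneg _)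
        have h7 : |b.1 - kap i| * (YY N i + 1) =
            |η * (3 * b.2.2 - (3 * cl i + 1) * (YY N i + 1))| := by
          rw [← u4, abs_mul, abs_of_nonneg (show 0 ≤ YY N i + 1 by linarith)]
        have h8 : |3 * b.2.2 - (3 * (cl i : ℝ) + 1) * (YY N i + 1)| ≤
            3 * (N * (YY N i + 4)) + (3 * cl i + 2) * (YY N i + 4) := by
          rw [abs_le]
          constructor <;> nlinarith [mul_nonneg hcl hY]
        rw [abs_mul, abs_of_pos hη] at h7
        have h9 := mul_le_mul_of_nonneg_left h8 hη.le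
        linarith
      have h10 : |b.1| ≤ |b.1 - kap i| + kap i := by
        have := abs_add_le (b.1 - kap i) (kap i)
        rw [sub_add_cancel, abs_of_nonneg (show 0 ≤ kap i by linarith)] at this
        exact this
      linarith
    · rw [u1, abs_of_nonneg (by linarith)]
      linarith
    · rw [abs_of_nonneg u2]
      linarith
  · obtain ⟨u1, u2, u3, u4, u5⟩ := hb
    have hz : b.2.2 ≤ N * (YY N i + 4) := by
      have := mul_le_mul_of_nonneg_left (show b.2.1 ≤ YY N i + 4 by linarith) hN
      linarith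
    refine ⟨?_, ?_, ?_⟩
    · rw [u1, abs_of_nonneg (by linarith)]
      linarith
    · rw [abs_of_nonneg (by linarith)]
      linarith
    · rw [abs_of_nonneg u4]
      linarith
  · obtain ⟨u1, u2, u3, u4⟩ := hb
    have hz : b.2.2 ≤ N * (YY N i + 4) := by
      rw [u1] at u3
      exact u3
    refine ⟨?_, ?_, ?_⟩
    · have h5 : |b.1 - kap i| ≤ η * (3 * (N * (YY N i + 4)) + (3 * cl i + 2) * (YY N i + 4)) := by
        have h6 : |b.1 - kap i| * 1 ≤ |b.1 - kap i| * (YY N i + 4) :=
          mul_le_mul_of_nonneg_left (by linarith) (abs_nonneg _)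
        have h7 : |b.1 - kap i| * (YY N i + 4) =
            |-(η * (3 * b.2.2 - (3 * cl i + 2) * (YY N i + 4)))| := by
          rw [← u4, abs_mul, abs_of_nonneg (show 0 ≤ YY N i + 4 by linarith)]
        have h8 : |3 * b.2.2 - (3 * (cl i : ℝ) + 2) * (YY N i + 4)| ≤
            3 * (N * (YY N i + 4)) + (3 * cl i + 2) * (YY N i + 4) := by
          rw [abs_le]
          constructor <;> nlinarith [mul_nonneg hcl hY]
        rw [abs_neg, abs_mul, abs_of_pos hη] at h7
        have h9 := mul_le_mul_of_nonneg_left h8 hη.le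
        linarith
      have h10 : |b.1| ≤ |b.1 - kap i| + kap i := by
        have := abs_add_le (b.1 - kap i) (kap i)
        rw [sub_add_cancel, abs_of_nonneg (show 0 ≤ kap i by linarith)] at this
        exact this
      linarith
    · rw [u1, abs_of_nonneg (by linarith)]
      linarith
    · rw [abs_of_nonneg u2]
      linarith

lemma base_compact (N : ℕ) {η : ℝ} (hη : 0 < η) (i : ℕ) : IsCompact (base N η i) := by
  obtain ⟨R, hR⟩ := base_bdd N hη i
  apply (isCompact_Icc (a := ((-R, -R, -R) : ℝ × ℝ × ℝ)) (b := (R, R, R))).of_isClosed_subset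
    (base_closed N η i)
  intro b hb
  obtain ⟨h1, h2, h3⟩ := hR b hb
  rw [abs_le] at h1 h2 h3
  exact ⟨⟨h1.1, h2.1, h3.1⟩, ⟨h1.2, h2.2, h3.2⟩⟩

lemma base_y (N : ℕ) (η : ℝ) (i : ℕ) (h2 : 2 ≤ i) (b : ℝ × ℝ × ℝ) (hb : b ∈ base N η i) :
    YY N i + 1 ≤ b.2.1 ∧ b.2.1 ≤ YY N i + 4 ∧ (ps i = 0 → b.2.1 = YY N i + 1) ∧
    (ps i = 1 → YY N i + 2 ≤ b.2.1 ∧ b.2.1 ≤ YY N i + 3) ∧ (ps i = 2 → b.2.1 = YY N i + 4) := by
  unfold base at hb
  split_ifs at hb with h1 h2 h3 h4
  · omega
  · omega
  · obtain ⟨u1, u2, u3, u4⟩ := hb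
    refine ⟨by linarith, by linarith, fun _ => u1, fun h => by omega, fun h => by omega⟩
  · obtain ⟨u1, u2, u3, u4, u5⟩ := hb
    refine ⟨by linarith, by linarith, fun h => by omega, fun _ => ⟨u2, u3⟩, fun h => by omega⟩
  · obtain ⟨u1, u2, u3, u4⟩ := hb
    refine ⟨by linarith, by linarith, fun h => by omega, fun h => by omega, fun _ => u1⟩

lemma base_disjoint_lt (N : ℕ) (η : ℝ) {i j : ℕ} (hij : i < j) (b : ℝ × ℝ × ℝ)
    (hi : b ∈ base N η i) (hj : b ∈ base N η j) : False := by
  rcases Nat.lt_or_ge j 2 with hj2 | hj2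
  · have hi0 : i = 0 := by omega
    have hj1 : j = 1 := by omega
    subst hi0 hj1
    unfold base at hi hj
    simp only [if_true, one_ne_zero, if_false, Set.mem_singleton_iff] at hi hj
    rw [hi] at hj
    norm_num at hj
  · have hbj := base_y N η j hj2 b hj
    have hYj := YY_nonneg N j
    rcases Nat.lt_or_ge i 2 with hi2 | hi2
    · have h0 : b.2.1 = 0 := by
        unfold base at hi
        split_ifs at hi with h1 h2 h3 h4
        · rw [Set.mem_singleton_iff] at hi
          rw [hi]
        · rw [Set.mem_singleton_iff] at hi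
          rw [hi]
        all_goals omega
      linarith [hbj.1]
    · have hbi := base_y N η i hi2 b hi
      by_cases hc : cl i = cl j
      · have hYY : YY N i = YY N j := by unfold YY kap; rw [hc]
        have hps : ps i < ps j := by
          unfold cl at hc
          unfold ps
          omega
        rcases ps_cases i with h | h | h <;> rcases ps_cases j with h' | h' | h'
        all_goals first
          | omega
          | (have e1 := hbi.2.2.1 h; have e2 := (hbj.2.2.2.1 h').1; linarith)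
          | (have e1 := hbi.2.2.1 h; have e2 := hbj.2.2.2.2 h'; linarith)
          | (have e1 := (hbi.2.2.2.1 h).2; have e2 := hbj.2.2.2.2 h'; linarith)
      · have hlt : cl i < cl j := by unfold cl at hc ⊢; omega
        have hYY : YY N i + 4 ≤ YY N j := by
          unfold YY CC
          have h1 := kap_ge i
          have hkk' := kap_lt hlt
          have h2 : kap i ^ 2 + 1 ≤ kap j ^ 2 := by nlinarith
          have h3 : (0 : ℝ) ≤ N := by positivity
          nlinarith
        linarith [hbi.2.1, hbj.1]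

lemma base_disjoint (N : ℕ) (η : ℝ) {i j : ℕ} (hij : i ≠ j) (b : ℝ × ℝ × ℝ)
    (hi : b ∈ base N η i) (hj : b ∈ base N η j) : False := by
  rcases lt_or_gt_of_ne hij with h | h
  · exact base_disjoint_lt N η h b hi hj
  · exact base_disjoint_lt N η h b hj hi

end Pool.Agent.V7H18.Helly
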